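import Mathlib

/-!
Definitions for the totally paracompact non-Menger space (under CH).
-/

set_option autoImplicit false

namespace Pool.Agent.helper90.TP

/-! ## Covering properties -/

/-- Totally paracompact: every base contains a locally finite subfamily covering the space. -/
def TotallyParacompact (X : Type) [TopologicalSpace X] : Prop :=
  ∀ B : Set (Set X), TopologicalSpace.IsTopologicalBasis B →
    ∃ C : Set (Set X), C ⊆ B ∧
      LocallyFinite (fun s : C => (s : Set X)) ∧ ⋃₀ C = Set.univ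

/-- The Menger covering property. -/
def MengerSpace (X : Type) [TopologicalSpace X] : Prop :=
  ∀ U : ℕ → Set (Set X), (∀ n, ∀ s ∈ U n, IsOpen s) → (∀ n, ⋃₀ U n = Set.univ) →
    ∃ A : ℕ → Set (Set X), (∀ n, A n ⊆ U n ∧ (A n).Finite) ∧
      (⋃ n, ⋃₀ A n) = Set.univ

/-- The Hurewicz covering property. -/
def HurewiczSpace (X : Type) [TopologicalSpace X] : Prop :=
  ∀ U : ℕ → Set (Set X), (∀ n, ∀ s ∈ U n, IsOpen s) → (∀ n, ⋃₀ U n = Set.univ) →
    ∃ A : ℕ → Set (Set X), (∀ n, A n ⊆ U n ∧ (A n).Finite) ∧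
      ∀ p : X, ∀ᶠ n in Filter.atTop, p ∈ ⋃₀ A n

/-! ## Finite initial segments -/

/-- The initial segment of length `n` of a sequence, as a list. -/
def pre (z : ℕ → ℕ) (n : ℕ) : List ℕ := (List.range n).map z

@[simp] theorem length_pre (z : ℕ → ℕ) (n : ℕ) : (pre z n).length = n := by
  simp [pre]

@[simp] theorem getElem_pre (z : ℕ → ℕ) (n i : ℕ) (h : i < (pre z n).length) :
    (pre z n)[i] = z i := by
  simp [pre]

theorem pre_zero (z : ℕ → ℕ) : pre z 0 = [] := by
  simp [pre]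

theorem pre_succ (z : ℕ → ℕ) (n : ℕ) : pre z (n + 1) = pre z n ++ [z n] := by
  simp [pre, List.range_succ]

theorem pre_eq_iff (z : ℕ → ℕ) (s : List ℕ) :
    pre z s.length = s ↔ ∀ i (h : i < s.length), z i = s[i] := by
  constructor
  · intro h i hi
    have h2 : (pre z s.length)[i]'(by simpa using hi) = s[i] := by
      simp only [h]
    simpa using h2
  · intro h
    apply List.ext_getElem
    · simp
    · intro i h1 h2
      simp only [getElem_pre]
      exact h i h2

theorem pre_congr (z w : ℕ → ℕ) (n : ℕ) : pre z n = pre w n ↔ ∀ i < n, z i = w i := by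
  constructor
  · intro h i hi
    have h2 := (pre_eq_iff z (pre w n)).1 (by simpa using h) i (by simpa using hi)
    simpa using h2
  · intro h
    have := (pre_eq_iff z (pre w n)).2 (fun i hi => by
      simp only [getElem_pre]; exact h i (by simpa using hi))
    simpa using this

theorem pre_prefix (z : ℕ → ℕ) {m n : ℕ} (h : m ≤ n) : pre z m <+: pre z n := by
  obtain ⟨k, rfl⟩ := Nat.exists_eq_add_of_le h
  clear h
  induction k with
  | zero => exact List.prefix_rfl
  | succ k ih =>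
    rw [← Nat.add_assoc, pre_succ]
    exact ih.trans (List.prefix_append _ _)

/-! ## The combinatorial data -/

section
variable {I : Type} [LinearOrder I]

/-- The family of sequences obtained from CH. -/
structure IsScale (x : I → ℕ → ℕ) : Prop where
  /-- the family meets every Laver tree -/
  laver : ∀ (P : Set (List ℕ)) (s : List ℕ), s ∈ P →
    (∀ u ∈ P, ∀ m : ℕ, ∃ j, m ≤ j ∧ u ++ [j] ∈ P) →
    ∃ a, pre (x a) s.length = s ∧ ∀ n, s.length ≤ n → pre (x a) n ∈ P
  /-- domination along the branches, up to countably many exceptions -/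
  dom : ∀ c : List ℕ → ℕ,
    {a | ¬ ∀ᶠ k in Filter.atTop, c (pre (x a) k) ≤ x a k}.Countable
  /-- eventually strictly increasing -/
  incr : ∀ a b, a < b → ∀ᶠ k in Filter.atTop, x a k < x b k

/-- Coherent finite approximations of the initial segments. -/
structure IsTower (F : ℕ → I → Finset I) : Prop where
  lt : ∀ n a, ∀ b ∈ F n a, b < a
  mono : ∀ m n a, m ≤ n → F m a ⊆ F n a
  exh : ∀ a b, b < a → ∃ n, b ∈ F n a
  closed : ∀ n a, ∀ b ∈ F n a, F n b ⊆ F n a

/-- The finite subsets of `I` closed under `F l`. -/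
def Cl (F : ℕ → I → Finset I) (l : ℕ) : Type :=
  {G : Finset I // ∀ a ∈ G, F l a ⊆ G}

/-- `H` and `G` agree below `γ`. -/
def Same {F : ℕ → I → Finset I} {l : ℕ} (γ : I) (H G : Cl F l) : Prop :=
  ∀ a < γ, (a ∈ H.1 ↔ a ∈ G.1)

/-- Points of the second kind: a node and a finite closed set. -/
structure YPt (F : ℕ → I → Finset I) where
  t : List ℕ
  G : Finset I
  cl : ∀ a ∈ G, F t.length a ⊆ G

/-- The space. -/
def Sp (_x : I → ℕ → ℕ) (F : ℕ → I → Finset I) : Type := I ⊕ YPt F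

variable {x : I → ℕ → ℕ} {F : ℕ → I → Finset I}

/-- Point of the first kind. -/
def pl (x : I → ℕ → ℕ) (F : ℕ → I → Finset I) (a : I) : Sp x F := Sum.inl a

/-- Point of the second kind. -/
def pr (x : I → ℕ → ℕ) (F : ℕ → I → Finset I) (y : YPt F) : Sp x F := Sum.inr y

/-- Basic neighbourhoods of the points of the first kind. -/
def W (x : I → ℕ → ℕ) (F : ℕ → I → Finset I) (n : ℕ) (a : I) : Set (Sp x F) :=
  {p | match p with
    | Sum.inl b => (∀ i < n, x b i = x a i) ∧ ∀ i, x a i ≤ x b i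
    | Sum.inr y => n ≤ y.t.length ∧
        (∀ i (h : i < y.t.length), i < n → y.t[i] = x a i) ∧
        (∀ i (h : i < y.t.length), x a i ≤ y.t[i]) ∧ a ∈ y.G}

/-- Basic neighbourhoods of the points of the second kind. -/
def N (x : I → ℕ → ℕ) (F : ℕ → I → Finset I) (γ : I) (y : YPt F) : Set (Sp x F) :=
  {p | match p with
    | Sum.inl _ => False
    | Sum.inr y' => y'.t = y.t ∧ ∀ a < γ, (a ∈ y'.G ↔ a ∈ y.G)}

/-- The point `v` agrees with `x b` up to `K`. -/
def Agr (x : I → ℕ → ℕ) (F : ℕ → I → Finset I) (K : ℕ) (b : I) (v : Sp x F) : Prop :=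
  match v with
    | Sum.inl c => ∀ i < K, x c i = x b i
    | Sum.inr y => K ≤ y.t.length ∧ ∀ i (h : i < y.t.length), i < K → y.t[i] = x b i

theorem pl_mem_W {n : ℕ} {a b : I} :
    pl x F b ∈ W x F n a ↔ (∀ i < n, x b i = x a i) ∧ ∀ i, x a i ≤ x b i := Iff.rfl

theorem pr_mem_W {n : ℕ} {a : I} {y : YPt F} :
    pr x F y ∈ W x F n a ↔ n ≤ y.t.length ∧
        (∀ i (h : i < y.t.length), i < n → y.t[i] = x a i) ∧
        (∀ i (h : i < y.t.length), x a i ≤ y.t[i]) ∧ a ∈ y.G := Iff.rfl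

theorem pl_mem_N {γ : I} {b : I} {y : YPt F} : pl x F b ∈ N x F γ y ↔ False := Iff.rfl

theorem pr_mem_N {γ : I} {y' y : YPt F} :
    pr x F y' ∈ N x F γ y ↔ y'.t = y.t ∧ ∀ a < γ, (a ∈ y'.G ↔ a ∈ y.G) := Iff.rfl

theorem pl_Agr {K : ℕ} {b c : I} : Agr x F K b (pl x F c) ↔ ∀ i < K, x c i = x b i := Iff.rfl

theorem pr_Agr {K : ℕ} {b : I} {y : YPt F} : Agr x F K b (pr x F y) ↔
    K ≤ y.t.length ∧ ∀ i (h : i < y.t.length), i < K → y.t[i] = x b i := Iff.rfl

theorem W_anti {m n : ℕ} (h : m ≤ n) (a : I) : W x F n a ⊆ W x F m a := by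
  rintro (b | y) hp
  · exact ⟨fun i hi => hp.1 i (lt_of_lt_of_le hi h), hp.2⟩
  · exact ⟨h.trans hp.1, fun i hi him => hp.2.1 i hi (lt_of_lt_of_le him h), hp.2.2⟩

theorem N_anti {γ δ : I} (h : γ ≤ δ) (y : YPt F) : N x F δ y ⊆ N x F γ y := by
  rintro (b | y') hp
  · exact hp
  · exact ⟨hp.1, fun a ha => hp.2 a (lt_of_lt_of_le ha h)⟩

theorem self_mem_W (n : ℕ) (a : I) : pl x F a ∈ W x F n a :=
  ⟨fun _ _ => rfl, fun _ => le_rfl⟩

theorem self_mem_N (γ : I) (y : YPt F) : pr x F y ∈ N x F γ y :=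
  ⟨rfl, fun _ _ => Iff.rfl⟩

theorem Agr_of_mem_W {n K : ℕ} (h : K ≤ n) {b : I} {v : Sp x F} (hv : v ∈ W x F n b) :
    Agr x F K b v := by
  rcases v with c | y
  · exact fun i hi => hv.1 i (lt_of_lt_of_le hi h)
  · exact ⟨h.trans hv.1, fun i hi hiK => hv.2.1 i hi (lt_of_lt_of_le hiK h)⟩

/-- The topology. -/
instance instTop : TopologicalSpace (Sp x F) where
  IsOpen U := (∀ a, pl x F a ∈ U → ∃ n, W x F n a ⊆ U) ∧
    (∀ y, pr x F y ∈ U → ∃ γ, N x F γ y ⊆ U) ∨ U = Set.univ
  isOpen_univ := Or.inr rfl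
  isOpen_inter := by
    rintro U V (⟨h1, h2⟩ | rfl) (⟨h3, h4⟩ | rfl)
    · left
      refine ⟨fun a ha => ?_, fun y hy => ?_⟩
      · obtain ⟨n, hn⟩ := h1 a ha.1
        obtain ⟨m, hm⟩ := h3 a ha.2
        exact ⟨max n m, Set.subset_inter ((W_anti (le_max_left _ _) a).trans hn)
          ((W_anti (le_max_right _ _) a).trans hm)⟩
      · obtain ⟨n, hn⟩ := h2 y hy.1
        obtain ⟨m, hm⟩ := h4 y hy.2
        exact ⟨max n m, Set.subset_inter ((N_anti (le_max_left _ _) y).trans hn)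
          ((N_anti (le_max_right _ _) y).trans hm)⟩
    · left; simpa using ⟨h1, h2⟩
    · left; simpa using ⟨h3, h4⟩
    · right; simp
  isOpen_sUnion := by
    intro S hS
    by_cases h : Set.univ ∈ S
    · right
      exact Set.eq_univ_of_univ_subset (Set.subset_sUnion_of_mem h)
    · left
      refine ⟨fun a ha => ?_, fun y hy => ?_⟩
      · obtain ⟨U, hU, haU⟩ := ha
        rcases hS U hU with h1 | h1
        · obtain ⟨n, hn⟩ := h1.1 a haU
          exact ⟨n, hn.trans (Set.subset_sUnion_of_mem hU)⟩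
        · exact absurd (h1 ▸ hU) h
      · obtain ⟨U, hU, haU⟩ := hy
        rcases hS U hU with h1 | h1
        · obtain ⟨n, hn⟩ := h1.2 y haU
          exact ⟨n, hn.trans (Set.subset_sUnion_of_mem hU)⟩
        · exact absurd (h1 ▸ hU) h

theorem isOpen_iff [Nonempty I] {U : Set (Sp x F)} :
    IsOpen U ↔ (∀ a, pl x F a ∈ U → ∃ n, W x F n a ⊆ U) ∧
      (∀ y, pr x F y ∈ U → ∃ γ, N x F γ y ⊆ U) := by
  constructor
  · rintro (h | rfl)
    · exact h
    · exact ⟨fun _ _ => ⟨0, Set.subset_univ _⟩,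
        fun _ _ => ⟨Classical.arbitrary I, Set.subset_univ _⟩⟩
  · intro h
    exact Or.inl h

end

end Pool.Agent.helper90.TP
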