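import Pool.Agent.helper90.TP.CA
import Pool.Agent.helper63.TP.HU
import Pool.Agent.helper80.TP.CH
import Pool.Agent.helper80.TP.TO

set_option autoImplicit false

namespace Pool.Agent.helper90.TP

variable {I : Type} [LinearOrder I]

theorem locallyFinite_of {X : Type} [TopologicalSpace X] (C : Set (Set X))
    (h : ∀ p : X, ∃ O : Set X, IsOpen O ∧ p ∈ O ∧ ∃ T : Set (Set X), T.Finite ∧
      ∀ s ∈ C, ∀ v ∈ s, v ∈ O → s ∈ T) :
    LocallyFinite (fun s : C => (s : Set X)) := by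
  intro p
  obtain ⟨O, hO, hp, T, hT, hC⟩ := h p
  refine ⟨O, hO.mem_nhds hp, ?_⟩
  refine (hT.preimage (f := (Subtype.val : C → Set X)) Subtype.val_injective.injOn).subset ?_
  rintro ⟨s, hs⟩ ⟨v, hv, hvO⟩
  exact hC s hs v hv hvO

theorem tp_strong {x : I → ℕ → ℕ} {F : ℕ → I → Finset I} [Nonempty I]
    (hI : ∀ a : I, (Set.Iio a).Countable)
    (hU : ¬ (Set.univ : Set I).Countable) (hx : IsScale x) (hF : IsTower F)
    (B : Set (Set (Sp x F))) (hB : TopologicalSpace.IsTopologicalBasis B) :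
    ∃ C : Set (Set (Sp x F)), C ⊆ B ∧ C.Countable ∧
      LocallyFinite (fun s : C => (s : Set (Sp x F))) ∧ ⋃₀ C = Set.univ := by
  classical
  have h1 : ∀ a n, ∃ V ∈ B, pl x F a ∈ V ∧ V ⊆ W x F n a := fun a n =>
    hB.exists_subset_of_mem_open (self_mem_W n a) (isOpen_W hI hU hx hF n a)
  choose Ba hBaB hBam hBaW using h1
  have h2 : ∀ a n, ∃ k, n ≤ k ∧ W x F k a ⊆ Ba a n := by
    intro a n
    obtain ⟨k, hk⟩ := (isOpen_iff.1 (hB.isOpen (hBaB a n))).1 a (hBam a n)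
    exact ⟨max n k, le_max_left _ _, (W_anti (le_max_right _ _) a).trans hk⟩
  choose m hm hmW using h2
  obtain ⟨S, hSc, hSm, hSb⟩ := capture hx Ba m hBaW hm hmW
  have hSW : ∀ q ∈ S, W x F q.2.2 q.1 ⊆ Ba q.1 q.2.1 := fun q hq =>
    (W_anti (hSm q hq) _).trans (hmW _ _)
  obtain ⟨γ0, hγ0⟩ := bdd hI hU (hSc.image fun q : I × ℕ × ℕ => q.1)
  have hγ : ∀ q ∈ S, q.1 < γ0 := fun q hq => hγ0 _ ⟨q, hq, rfl⟩
  -- second kind
  have h3 : ∀ (t : List ℕ) (G : Cl F t.length) (γ : I), ∃ V ∈ B,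
      pr x F ⟨t, G.1, G.2⟩ ∈ V ∧ V ⊆ N x F γ ⟨t, G.1, G.2⟩ := fun t G γ =>
    hB.exists_subset_of_mem_open (self_mem_N γ _) (isOpen_N γ _)
  choose Bp hBpB hBpm hBpN using h3
  have h4 : ∀ (t : List ℕ) (G : Cl F t.length) (γ : I), ∃ δ, γ ≤ δ ∧
      N x F δ ⟨t, G.1, G.2⟩ ⊆ Bp t G γ := by
    intro t G γ
    obtain ⟨k, hk⟩ := (isOpen_iff.1 (hB.isOpen (hBpB t G γ))).2 _ (hBpm t G γ)
    exact ⟨max γ k, le_max_left _ _, (N_anti (le_max_right _ _) _).trans hk⟩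
  choose Φ hΦ hΦN using h4
  have h5 := fun t : List ℕ => ycover hI hF (Φ t) (hΦ t) γ0
  choose T hTc hTγ hTH using h5
  set Vs : Set (Sp x F) := ⋃ q ∈ S, W x F q.2.2 q.1 with hVs
  set C1 : Set (Set (Sp x F)) := (fun q : I × ℕ × ℕ => Ba q.1 q.2.1) '' S with hC1
  set C2 : Set (Set (Sp x F)) := ⋃ t : List ℕ, (fun r : Cl F t.length × I => Bp t r.1 r.2) ''
    {r ∈ T t | pr x F ⟨t, r.1.1, r.1.2⟩ ∉ Vs} with hC2
  -- transfer of membership
  have htr : ∀ (t : List ℕ) (G H : Finset I) (hG : ∀ a ∈ G, F t.length a ⊆ G)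
      (hH : ∀ a ∈ H, F t.length a ⊆ H) (q : I × ℕ × ℕ), q ∈ S →
      (∀ a < γ0, (a ∈ H ↔ a ∈ G)) → pr x F ⟨t, H, hH⟩ ∈ W x F q.2.2 q.1 →
      pr x F ⟨t, G, hG⟩ ∈ W x F q.2.2 q.1 := by
    intro t G H hG hH q hq hGH hw
    exact ⟨hw.1, hw.2.1, hw.2.2.1, (hGH _ (hγ q hq)).1 hw.2.2.2⟩
  refine ⟨C1 ∪ C2, ?_, ?_, ?_, ?_⟩
  · rintro V (⟨q, hq, rfl⟩ | hV)
    · exact hBaB _ _
    · obtain ⟨t, r, hr, rfl⟩ := Set.mem_iUnion.1 hV
      exact hBpB _ _ _
  · refine (hSc.image _).union (Set.countable_iUnion fun t => ?_)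
    exact (((hTc t).mono fun r hr => hr.1).image _)
  · apply locallyFinite_of
    rintro (b | ⟨t, H, hH⟩)
    · obtain ⟨q, hq, hbq, K, hK⟩ := hSb b
      refine ⟨W x F q.2.2 q.1 ∩ W x F K b, (isOpen_W hI hU hx hF _ _).inter
        (isOpen_W hI hU hx hF _ _), ⟨hbq, self_mem_W K b⟩, _, hK.image (fun r => Ba r.1 r.2.1),
        ?_⟩
      rintro V (⟨r, hr, rfl⟩ | hV) v hv ⟨hvq, hvK⟩
      · exact ⟨r, ⟨hr, v, hv, hvq, Agr_of_mem_W le_rfl hvK⟩, rfl⟩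
      · exfalso
        obtain ⟨t, r, ⟨hr, hrV⟩, rfl⟩ := Set.mem_iUnion.1 hV
        apply hrV
        have hvN := hBpN _ _ _ hv
        rcases v with c | ⟨t', H', hH'⟩
        · exact hvN.elim
        · obtain ⟨ht, hs⟩ := hvN
          simp only at ht
          subst ht
          exact Set.mem_biUnion hq (htr t' r.1.1 H' r.1.2 hH' q hq
            (fun a ha => hs a (lt_of_lt_of_le ha (hTγ _ r hr))) hvq)
    · obtain ⟨p, hp, hpH, hfin⟩ := hTH t ⟨H, hH⟩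
      refine ⟨N x F (Φ t p.1 p.2) ⟨t, H, hH⟩, isOpen_N _ _, self_mem_N _ _,
        ((fun r : I × ℕ => Ba r.1 r.2) '' (↑(H ×ˢ Finset.range (t.length + 1)) : Set (I × ℕ))) ∪
        ((fun r : Cl F t.length × I => Bp t r.1 r.2) '' {r ∈ T t | ∃ H' : Cl F t.length,
          Same r.2 H' r.1 ∧ Same (Φ t p.1 p.2) H' p.1}),
        ((Finset.finite_toSet _).image _).union (hfin.image _), ?_⟩
      have hle : γ0 ≤ Φ t p.1 p.2 := (hTγ t p hp).trans (hΦ t p.1 p.2)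
      rintro V (⟨r, hr, rfl⟩ | hV) v hv hvN
      · left
        rcases v with c | ⟨t', H', hH'⟩
        · exact hvN.elim
        · obtain ⟨ht, hs⟩ := hvN
          simp only at ht
          subst ht
          have hw := hBaW _ _ hv
          refine ⟨(r.1, r.2.1), ?_, rfl⟩
          simp only [Finset.coe_product, Set.mem_prod, Finset.mem_coe, Finset.mem_range]
          exact ⟨(hs _ (lt_of_lt_of_le (hγ r hr) hle)).1 hw.2.2.2, Nat.lt_succ_of_le hw.1⟩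
      · right
        obtain ⟨t2, r, ⟨hr, hrV⟩, rfl⟩ := Set.mem_iUnion.1 hV
        have hw := hBpN _ _ _ hv
        rcases v with c | ⟨t', H', hH'⟩
        · exact hvN.elim
        · obtain ⟨ht, hs⟩ := hvN
          simp only at ht
          subst ht
          obtain ⟨ht2, hs2⟩ := hw
          simp only at ht2
          subst ht2
          refine ⟨r, ⟨hr, ⟨H', hH'⟩, hs2, fun a ha => (hs a ha).trans (hpH a ha)⟩, rfl⟩
  · apply Set.eq_univ_of_forall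
    rintro (b | ⟨t, H, hH⟩)
    · obtain ⟨q, hq, hbq, -⟩ := hSb b
      exact ⟨_, Or.inl ⟨q, hq, rfl⟩, hSW q hq hbq⟩
    · obtain ⟨p, hp, hpH, -⟩ := hTH t ⟨H, hH⟩
      by_cases hpV : pr x F ⟨t, p.1.1, p.1.2⟩ ∈ Vs
      · obtain ⟨q, hq, hqw⟩ := Set.mem_iUnion₂.1 hpV
        have hle : γ0 ≤ Φ t p.1 p.2 := (hTγ t p hp).trans (hΦ t p.1 p.2)
        refine ⟨_, Or.inl ⟨q, hq, rfl⟩, hSW q hq ?_⟩
        exact htr t H p.1.1 hH p.1.2 q hq
          (fun a ha => (hpH a (lt_of_lt_of_le ha hle)).symm) hqw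
      · refine ⟨_, Or.inr (Set.mem_iUnion.2 ⟨t, p, ⟨hp, hpV⟩, rfl⟩), hΦN t p.1 p.2 ?_⟩
        exact ⟨rfl, hpH⟩

theorem lindelof_of_strong {X : Type} [TopologicalSpace X]
    (h : ∀ B : Set (Set X), TopologicalSpace.IsTopologicalBasis B →
      ∃ C : Set (Set X), C ⊆ B ∧ C.Countable ∧ ⋃₀ C = Set.univ) : LindelofSpace X := by
  constructor
  rw [isLindelof_iff_countable_subcover]
  intro ι U hU hcov
  have hb : TopologicalSpace.IsTopologicalBasis {V : Set X | IsOpen V ∧ ∃ i, V ⊆ U i} := by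
    apply TopologicalSpace.isTopologicalBasis_of_isOpen_of_nhds
    · exact fun V hV => hV.1
    · intro p O hp hO
      obtain ⟨i, hi⟩ := Set.mem_iUnion.1 (hcov (Set.mem_univ p))
      exact ⟨O ∩ U i, ⟨hO.inter (hU i), i, Set.inter_subset_right⟩, ⟨hp, hi⟩,
        Set.inter_subset_left⟩
  obtain ⟨C, hCB, hCc, hCu⟩ := h _ hb
  choose f hf using fun V : C => (hCB V.2).2
  have : Countable C := hCc.to_subtype
  refine ⟨Set.range f, Set.countable_range f, ?_⟩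
  intro p _
  obtain ⟨V, hV, hpV⟩ : p ∈ ⋃₀ C := by rw [hCu]; trivial
  exact Set.mem_biUnion ⟨⟨V, hV⟩, rfl⟩ (hf ⟨V, hV⟩ hpV)

theorem main (hCH : Cardinal.aleph 1 = Cardinal.continuum) :
    ∃ (X : Type) (_ : TopologicalSpace X), T3Space X ∧
      TopologicalSpace.IsTopologicalBasis {s : Set X | IsClopen s} ∧
      LindelofSpace X ∧ TotallyParacompact X ∧ ¬ MengerSpace X ∧
      ∃ Y : Set X, Dense Y ∧ HurewiczSpace Y := by
  obtain ⟨I, _, _, hI, hU, x, hx⟩ := exists_scale hCH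
  obtain ⟨F, hF⟩ := exists_tower hI
  have hne : Nonempty I := by
    by_contra h
    rw [not_nonempty_iff] at h
    exact hU (Set.countable_univ)
  refine ⟨Sp x F, instTop, t3 hI hU hx hF, clopen_basis hI hU hx hF, ?_, ?_, not_menger hx,
    Set.range (pr x F), dense_Y hF, hurewicz_Y hI hU hF⟩
  · apply lindelof_of_strong
    intro B hB
    obtain ⟨C, h1, h2, -, h3⟩ := tp_strong hI hU hx hF B hB
    exact ⟨C, h1, h2, h3⟩
  · intro B hB
    obtain ⟨C, h1, -, h2, h3⟩ := tp_strong hI hU hx hF B hB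
    exact ⟨C, h1, h2, h3⟩

end Pool.Agent.helper90.TP
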