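import Pool.Agent.helper90.TP.Defs
import Pool.Agent.helper61.TP.ND

set_option autoImplicit false
set_option linter.unusedSectionVars false

namespace Pool.Agent.helper90.TP

variable {I : Type} [LinearOrder I]

theorem Agr_congr {x : I → ℕ → ℕ} {F : ℕ → I → Finset I} {K : ℕ} {a b : I}
    (h : ∀ i < K, x a i = x b i) (v : Sp x F) : Agr x F K a v ↔ Agr x F K b v := by
  rcases v with c | y
  · constructor
    · intro hv i hi
      rw [← h i hi]; exact hv i hi
    · intro hv i hi
      rw [h i hi]; exact hv i hi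
  · constructor
    · intro hv
      exact ⟨hv.1, fun i hi hiK => by rw [← h i hiK]; exact hv.2 i hi hiK⟩
    · intro hv
      exact ⟨hv.1, fun i hi hiK => by rw [h i hiK]; exact hv.2 i hi hiK⟩

theorem Agr_anti {x : I → ℕ → ℕ} {F : ℕ → I → Finset I} {K L : ℕ} (h : K ≤ L) {b : I}
    {v : Sp x F} (hv : Agr x F L b v) : Agr x F K b v := by
  rcases v with c | y
  · exact fun i hi => hv i (lt_of_lt_of_le hi h)
  · exact ⟨h.trans hv.1, fun i hi hiK => hv.2 i hi (lt_of_lt_of_le hiK h)⟩

theorem le_of_W_Agr {x : I → ℕ → ℕ} {F : ℕ → I → Finset I} {n K : ℕ} {a b : I}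
    {v : Sp x F} (hv : v ∈ W x F n a) (hb : Agr x F K b v) : ∀ i < K, x a i ≤ x b i := by
  intro i hi
  rcases v with c | y
  · rw [← hb i hi]; exact hv.2 i
  · have h1 : i < y.t.length := lt_of_lt_of_le hi hb.1
    rw [← hb.2 i h1 hi]
    exact hv.2.2.1 i h1

theorem eq_of_W_Agr {x : I → ℕ → ℕ} {F : ℕ → I → Finset I} {n K : ℕ} {a b : I}
    {v : Sp x F} (hv : v ∈ W x F n a) (hb : Agr x F K b v) :
    ∀ i, i < n → i < K → x a i = x b i := by
  intro i hin hiK
  rcases v with c | y
  · rw [← hb i hiK]; exact (hv.1 i hin).symm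
  · have h1 : i < y.t.length := lt_of_lt_of_le hiK hb.1
    rw [← hb.2 i h1 hiK]
    exact (hv.2.1 i h1 hin).symm

theorem capture {x : I → ℕ → ℕ} {F : ℕ → I → Finset I} (hx : IsScale x)
    (B : I → ℕ → Set (Sp x F)) (m : I → ℕ → ℕ)
    (hB : ∀ a n, B a n ⊆ W x F n a) (hm : ∀ a n, n ≤ m a n)
    (hWB : ∀ a n, W x F (m a n) a ⊆ B a n) :
    ∃ S : Set (I × ℕ × ℕ), S.Countable ∧ (∀ q ∈ S, m q.1 q.2.1 ≤ q.2.2) ∧
      ∀ b : I, ∃ q ∈ S, pl x F b ∈ W x F q.2.2 q.1 ∧
        ∃ K, {r ∈ S | ∃ v ∈ B r.1 r.2.1, v ∈ W x F q.2.2 q.1 ∧ Agr x F K b v}.Finite := by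
  classical
  rcases isEmpty_or_nonempty I with hE | hE
  · exact ⟨∅, Set.countable_empty, by simp, fun b => (hE.false b).elim⟩
  choose Q c hQc hQ hQf hQz using fun s => node_data hx m s
  -- the global function
  set cs : List ℕ → ℕ := fun u => (Finset.range (u.length + 1)).sup (fun n => c (u.take n) u)
    with hcs
  obtain ⟨e, he⟩ := Set.countable_iff_exists_subset_range.1 (hx.dom cs)
  -- the additional point at a node
  set E : List ℕ → Set (I × ℕ) := fun s => {q | ∃ i, (pre (x (e i)) s.length = s ∧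
    ∀ i' < i, pre (x (e i')) s.length ≠ s) ∧ q = (e i, m (e i) s.length)} with hE'
  have hEfin : ∀ s, (E s).Finite := by
    intro s
    apply Set.Subsingleton.finite
    rintro q ⟨i, ⟨h1, h2⟩, rfl⟩ q' ⟨i', ⟨h1', h2'⟩, rfl⟩
    have : i = i' := by
      rcases lt_trichotomy i i' with h | h | h
      · exact absurd h1 (h2' i h)
      · exact h
      · exact absurd h1' (h2 i' h)
    subst this
    rfl
  set Q' : List ℕ → Set (I × ℕ) := fun s => Q s ∪ E s with hQ'
  have hQ'c : ∀ s, (Q' s).Countable := fun s => (hQc s).union (hEfin s).countable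
  have hQ'1 : ∀ s, ∀ q ∈ Q' s, pre (x q.1) s.length = s ∧ m q.1 s.length ≤ q.2 := by
    rintro s q (hq | ⟨i, ⟨h1, h2⟩, rfl⟩)
    · exact hQ s q hq
    · exact ⟨h1, le_rfl⟩
  have hQ'f : ∀ s, ∀ z : ℕ → ℕ, ∃ K : ℕ, {q ∈ Q' s | ∀ i < K, x q.1 i ≤ z i}.Finite := by
    intro s z
    obtain ⟨K, hK⟩ := hQf s z
    refine ⟨K, (hK.union (hEfin s)).subset ?_⟩
    rintro q ⟨hq | hq, h⟩
    · exact Or.inl ⟨hq, h⟩
    · exact Or.inr hq
  -- the covered sets
  let step : ℕ → Set (Sp x F) → Set (Sp x F) := fun n C =>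
    C ∪ {v | ∃ a k, (a, k) ∈ Q' (pre (x a) n) ∧ (∀ v', Agr x F n a v' → v' ∉ C) ∧
      v ∈ W x F k a}
  let Cov : ℕ → Set (Sp x F) := fun n => Nat.rec ∅ (fun n C => step n C) n
  have hCov0 : Cov 0 = ∅ := rfl
  have hCovs : ∀ n, Cov (n + 1) = Cov n ∪ {v | ∃ a k, (a, k) ∈ Q' (pre (x a) n) ∧
      (∀ v', Agr x F n a v' → v' ∉ Cov n) ∧ v ∈ W x F k a} := fun n => rfl
  have hCovm : ∀ n k, n ≤ k → Cov n ⊆ Cov k := by
    intro n k hnk
    induction k, hnk using Nat.le_induction with
    | base => exact subset_rfl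
    | succ k hk ih => rw [hCovs]; exact ih.trans Set.subset_union_left
  set S : Set (I × ℕ × ℕ) := {q | (q.1, q.2.2) ∈ Q' (pre (x q.1) q.2.1) ∧
    ∀ v, Agr x F q.2.1 q.1 v → v ∉ Cov q.2.1} with hS
  have hSW : ∀ q ∈ S, W x F q.2.2 q.1 ⊆ Cov (q.2.1 + 1) := by
    rintro ⟨a, n, k⟩ ⟨h1, h2⟩ v hv
    rw [hCovs]
    exact Or.inr ⟨a, k, h1, h2, hv⟩
  have hCovS : ∀ n v, v ∈ Cov n → ∃ q ∈ S, q.2.1 < n ∧ v ∈ W x F q.2.2 q.1 := by
    intro n
    induction n with
    | zero => intro v hv; rw [hCov0] at hv; exact hv.elim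
    | succ n ih =>
      intro v hv
      rw [hCovs] at hv
      rcases hv with hv | ⟨a, k, h1, h2, hv⟩
      · obtain ⟨q, hq, hqn, hqv⟩ := ih v hv
        exact ⟨q, hq, hqn.trans (Nat.lt_succ_self n), hqv⟩
      · exact ⟨(a, n, k), ⟨h1, h2⟩, Nat.lt_succ_self n, hv⟩
  have hSm : ∀ q ∈ S, m q.1 q.2.1 ≤ q.2.2 := by
    rintro ⟨a, n, k⟩ ⟨h1, h2⟩
    have := (hQ'1 _ _ h1).2
    simpa using this
  have hSn : ∀ q ∈ S, q.2.1 ≤ q.2.2 := fun q hq => (hm _ _).trans (hSm q hq)
  have hScount : S.Countable := by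
    have : S ⊆ ⋃ s : List ℕ, (fun q : I × ℕ => (q.1, s.length, q.2)) '' Q' s := by
      rintro ⟨a, n, k⟩ ⟨h1, h2⟩
      refine Set.mem_iUnion.2 ⟨pre (x a) n, ⟨(a, k), h1, ?_⟩⟩
      simp
    exact (Set.countable_iUnion fun s => (hQ'c s).image _).mono this
  refine ⟨S, hScount, hSm, fun b => ?_⟩
  -- every point is covered
  have hcov : ∃ n, pl x F b ∈ Cov n := by
    by_contra hcon
    push Not at hcon
    -- infinitely many free levels
    have hfree : ∀ N, ∃ n, N ≤ n ∧ ∀ v, Agr x F n b v → v ∉ Cov n := by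
      intro N
      by_contra hN
      push Not at hN
      have key : ∀ n' < N, ∀ᶠ n in Filter.atTop, ∀ q ∈ Q' (pre (x b) n'),
          (q.1, n', q.2) ∈ S → ∀ v ∈ W x F q.2 q.1, ¬ Agr x F n b v := by
        intro n' _
        obtain ⟨K, hK⟩ := hQ'f (pre (x b) n') (x b)
        have h1 : ∀ᶠ n in Filter.atTop,
            ∀ q ∈ {q ∈ Q' (pre (x b) n') | ∀ i < K, x q.1 i ≤ x b i},
            (q.1, n', q.2) ∈ S → ∀ v ∈ W x F q.2 q.1, ¬ Agr x F n b v := by
          rw [Filter.eventually_all_finite hK]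
          intro q hq
          rcases Classical.em (((q.1, n', q.2) : I × ℕ × ℕ) ∈ S) with hqS | hqS
          · have hnot : pl x F b ∉ W x F q.2 q.1 := fun h => hcon (n' + 1) (hSW (q.1, n', q.2) hqS h)
            rw [pl_mem_W, not_and_or] at hnot
            push Not at hnot
            rcases hnot with ⟨i, hi, hne⟩ | ⟨i, hlt⟩
            · filter_upwards [Filter.eventually_ge_atTop (i + 1)] with n hn _ v hv hA
              exact hne (eq_of_W_Agr hv hA i hi (by omega)).symm
            · filter_upwards [Filter.eventually_ge_atTop (i + 1)] with n hn _ v hv hA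
              exact absurd (le_of_W_Agr hv hA i (by omega)) (not_le.2 hlt)
          · exact Filter.Eventually.of_forall fun n h => absurd h hqS
        filter_upwards [h1, Filter.eventually_ge_atTop K] with n hn hnK q hq hqS v hv hA
        refine hn q ⟨hq, fun i hi => le_of_W_Agr hv hA i (by omega)⟩ hqS v hv hA
      have key2 : ∀ᶠ n in Filter.atTop, ∀ n' ∈ Finset.range N, ∀ q ∈ Q' (pre (x b) n'),
          (q.1, n', q.2) ∈ S → ∀ v ∈ W x F q.2 q.1, ¬ Agr x F n b v := by
        rw [Filter.eventually_all_finset]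
        intro n' hn'
        exact key n' (Finset.mem_range.1 hn')
      obtain ⟨n, hn1, hn2⟩ := (key2.and (Filter.eventually_ge_atTop N)).exists
      obtain ⟨v, hv1, hv2⟩ := hN n hn2
      obtain ⟨⟨a, n', k⟩, hq, hqn, hqv⟩ := hCovS n v hv2
      simp only at hqn hqv
      have hn'k : n' ≤ k := hSn _ hq
      have hagree : ∀ i < n', x a i = x b i := fun i hi =>
        eq_of_W_Agr hqv hv1 i (by omega) (by omega)
      have hpre : pre (x a) n' = pre (x b) n' := (pre_congr _ _ _).2 hagree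
      have hq' : (a, k) ∈ Q' (pre (x b) n') := by rw [← hpre]; exact hq.1
      by_cases hn'N : n' < N
      · exact hn1 n' (Finset.mem_range.2 hn'N) (a, k) hq' hq v hqv hv1
      · push Not at hn'N
        obtain ⟨v', hv1', hv2'⟩ := hN n' hn'N
        exact hq.2 v' ((Agr_congr hagree v').2 hv1') hv2'
    by_cases hb : b ∈ Set.range e
    · obtain ⟨i0, rfl⟩ := hb
      have h1 : ∀ᶠ n in Filter.atTop, ∀ i ∈ Finset.range i0,
          pre (x (e i)) n = pre (x (e i0)) n → x (e i) = x (e i0) := by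
        rw [Filter.eventually_all_finset]
        intro i _
        by_cases hne : x (e i) = x (e i0)
        · exact Filter.Eventually.of_forall fun n _ => hne
        · obtain ⟨j, hj⟩ := Function.ne_iff.1 hne
          filter_upwards [Filter.eventually_ge_atTop (j + 1)] with n hn hp
          exact absurd ((pre_congr _ _ _).1 hp j (by omega)) hj
      obtain ⟨N, hN⟩ := Filter.eventually_atTop.1 h1
      obtain ⟨n, hn, hfr⟩ := hfree N
      have hex : ∃ i, pre (x (e i)) n = pre (x (e i0)) n := ⟨i0, rfl⟩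
      set i := Nat.find hex with hi
      have hi1 : pre (x (e i)) n = pre (x (e i0)) n := Nat.find_spec hex
      have hi2 : i ≤ i0 := Nat.find_min' hex rfl
      have hxe : x (e i) = x (e i0) := by
        rcases hi2.lt_or_eq with h | h
        · exact hN n hn i (Finset.mem_range.2 h) hi1
        · rw [h]
      refine hcon (n + 1) (hSW (e i, n, m (e i) n) ⟨?_, ?_⟩ ?_)
      · right
        refine ⟨i, ⟨?_, ?_⟩, ?_⟩
        · simp
        · intro i' hi'
          simp only [length_pre]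
          rw [hi1]
          exact Nat.find_min hex hi'
        · simp
      · intro v hv
        exact hfr v ((Agr_congr (fun i _ => by rw [hxe]) v).1 hv)
      · exact ⟨fun j _ => by rw [hxe], fun j => by rw [hxe]⟩
    · have hb' : ∀ᶠ k in Filter.atTop, cs (pre (x b) k) ≤ x b k := by
        by_contra h
        exact hb (he h)
      obtain ⟨k0, hk0⟩ := Filter.eventually_atTop.1 hb'
      obtain ⟨n, hn, hfr⟩ := hfree k0
      obtain ⟨q, hq, hq1, hq2⟩ := hQz (pre (x b) n) (x b) (by simp) (by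
        intro k hk
        rw [length_pre] at hk
        refine le_trans ?_ (hk0 k (hn.trans hk))
        have h2 : (pre (x b) k).take n = pre (x b) n := by
          have := pre_prefix (x b) hk
          rw [List.prefix_iff_eq_take] at this
          rw [length_pre] at this
          exact this.symm
        calc c (pre (x b) n) (pre (x b) k)
            = c ((pre (x b) k).take n) (pre (x b) k) := by rw [h2]
          _ ≤ cs (pre (x b) k) := by
              rw [hcs]
              exact Finset.le_sup (f := fun n => c ((pre (x b) k).take n) (pre (x b) k))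
                (Finset.mem_range.2 (by rw [length_pre]; omega)))
      have hqp := (hQ _ q hq).1
      rw [length_pre] at hqp
      have hagree : ∀ i < n, x q.1 i = x b i := (pre_congr _ _ _).1 hqp
      refine hcon (n + 1) (hSW (q.1, n, q.2) ⟨?_, ?_⟩ ⟨hq1, hq2⟩)
      · left
        simp only
        rw [hqp]
        exact hq
      · intro v hv
        exact hfr v ((Agr_congr hagree v).1 hv)
  obtain ⟨n, hn⟩ := hcov
  obtain ⟨⟨a, n, k⟩, hq, -, hqv⟩ := hCovS n _ hn
  refine ⟨(a, n, k), hq, hqv, ?_⟩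
  choose Kf hKf using fun n' => hQ'f (pre (x b) n') (x b)
  refine ⟨(Finset.range (n + 1)).sup Kf + n, ?_⟩
  have hfin : (⋃ n' ∈ Finset.range (n + 1), (fun q : I × ℕ => (q.1, n', q.2)) ''
      {q ∈ Q' (pre (x b) n') | ∀ i < Kf n', x q.1 i ≤ x b i}).Finite := by
    refine Set.Finite.biUnion (Finset.finite_toSet _) fun n' _ => (hKf n').image _
  refine hfin.subset ?_
  rintro ⟨a', n', k'⟩ ⟨hr, v, hvB, hvW, hvA⟩
  simp only at hvB hvW
  have hvW' : v ∈ W x F n' a' := hB _ _ hvB
  have hn' : n' ≤ n := by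
    by_contra hlt
    push Not at hlt
    have h1 : Agr x F n' a' v := Agr_of_mem_W le_rfl hvW'
    exact hr.2 v h1 (hCovm (n + 1) n' hlt (hSW _ hq hvW))
  have hagree : ∀ i < n', x a' i = x b i := fun i hi =>
    eq_of_W_Agr hvW' hvA i hi (by omega)
  have hpre : pre (x a') n' = pre (x b) n' := (pre_congr _ _ _).2 hagree
  refine Set.mem_biUnion (x := n') (by simpa using Nat.lt_succ_of_le hn') ?_
  refine ⟨(a', k'), ⟨?_, ?_⟩, rfl⟩
  · rw [← hpre]; exact hr.1
  · intro i hi
    refine le_of_W_Agr hvW' hvA i ?_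
    have : Kf n' ≤ (Finset.range (n + 1)).sup Kf :=
      Finset.le_sup (Finset.mem_range.2 (Nat.lt_succ_of_le hn'))
    omega

end Pool.Agent.helper90.TP
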